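import Pool.Agent.W102.GI.Defs

set_option autoImplicit false

namespace Pool.Agent.W576.GI

theorem GZ : Pool.Agent.W102.GI.GZ := by
  intro n
  induction n using Nat.strong_induction_on with
  | _ n ih =>
    match n, ih with
    | 0, _ =>
      intro k hk
      have h : k ≠ 0 := by omega
      simp [Pool.Agent.W102.GI.gam, h]
    | 1, _ =>
      intro k hk
      have h : k ≠ 0 := by omega
      simp [Pool.Agent.W102.GI.gam, h]
    | n + 2, ih =>
      intro k hk
      have h0 : k ≠ 0 := by omega
      have h2 : ¬ k < 2 := by omega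
      rw [Pool.Agent.W102.GI.gam, if_neg h0, if_neg h0, if_neg h2]
      have e1 : Pool.Agent.W102.GI.gam (n + 1) k = 0 := ih (n + 1) (by omega) k (by omega)
      have e2 : ((n : ℚ) + 3 - 2 * k) * Pool.Agent.W102.GI.gam (n + 1) (k - 1) = 0 := by
        by_cases h : n + 1 < 2 * (k - 1)
        · rw [ih (n + 1) (by omega) (k - 1) h, mul_zero]
        · have h3 : n + 3 = 2 * k := by omega
          have h4 : (n : ℚ) + 3 = 2 * k := by exact_mod_cast h3
          rw [h4, sub_self, zero_mul]
      have e3 : Pool.Agent.W102.GI.gam n k = 0 := ih n (by omega) k (by omega)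
      have e4 : Pool.Agent.W102.GI.gam n (k - 1) = 0 := ih n (by omega) (k - 1) (by omega)
      have e5 : ((n : ℚ) + 4 - 2 * k) * ((n : ℚ) + 3 - 2 * k) *
          Pool.Agent.W102.GI.gam n (k - 2) = 0 := by
        by_cases h : n < 2 * (k - 2)
        · rw [ih n (by omega) (k - 2) h, mul_zero]
        · have h3 : n + 3 = 2 * k ∨ n + 4 = 2 * k := by omega
          rcases h3 with h3 | h3
          · have h4 : (n : ℚ) + 3 = 2 * k := by exact_mod_cast h3
            rw [h4, sub_self, mul_zero, zero_mul]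
          · have h4 : (n : ℚ) + 4 = 2 * k := by exact_mod_cast h3
            rw [h4, sub_self, zero_mul, zero_mul]
      rw [e1, e3, e4]
      rw [show 4 * ((n : ℚ) + 3 - 2 * k) * Pool.Agent.W102.GI.gam (n + 1) (k - 1) =
        4 * (((n : ℚ) + 3 - 2 * k) * Pool.Agent.W102.GI.gam (n + 1) (k - 1)) by ring, e2,
        show 8 * ((n : ℚ) + 4 - 2 * k) * ((n : ℚ) + 3 - 2 * k) * Pool.Agent.W102.GI.gam n (k - 2) =
        8 * (((n : ℚ) + 4 - 2 * k) * ((n : ℚ) + 3 - 2 * k) *
          Pool.Agent.W102.GI.gam n (k - 2)) by ring, e5]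
      simp

end Pool.Agent.W576.GI
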